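import Pool.Agent.Lib.MP_f46765_al.H13.Final

/-! The rank gradient of finite `p`-groups satisfying a law vanishes uniformly. -/

namespace Pool.Agent.Results.MP_f46765_al.LawRankGradient

open Pool.Agent.LawGrowth

universe v

/-- For all `l`, `d` and `ε > 0` there is `N` such that, for every nontrivial word `w` of length at
most `l`, every prime `p` and every finite `p`-group `G` generated by `d` elements and satisfying
the law `w`, every subgroup `H` of `G` contained in the `N`-th dimension subgroup modulo `p` can be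
generated by at most `1 + ε [G : H]` elements. -/
theorem result : ∀ (l d : ℕ) (ε : ℝ), 0 < ε → ∃ N : ℕ,
    ∀ (k : ℕ) (w : FreeGroup (Fin k)), w ≠ 1 → w.norm ≤ l →
      ∀ (p : ℕ) [Fact p.Prime] (G : Type v) [Group G] [Finite G], IsPGroup p G →
        (∀ φ : Fin k → G, FreeGroup.lift φ w = 1) →
        (∃ s : Fin d → G, Subgroup.closure (Set.range s) = ⊤) →
        ∀ H : Subgroup G,
          (∀ h ∈ H, MonoidAlgebra.of (ZMod p) G h - 1 ∈ augPow (ZMod p) G N) →
          (Group.rank H : ℝ) ≤ 1 + ε * H.index := by
  intro l d ε hε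
  obtain ⟨N, hN⟩ := rank_gradient.{v} l d ε hε
  refine ⟨N, ?_⟩
  rintro k w hw hl p _ G _ _ hG hlaw ⟨s, hs⟩ H hH
  exact hN k w hw hl p G hG hlaw s hs H hH

end Pool.Agent.Results.MP_f46765_al.LawRankGradient
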