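import Pool.Agent.Lib.MP_f46765_al.H13.Final

/-! Groups satisfying a law have uniformly subexponential augmentation filtrations. -/

namespace Pool.Agent.Results.MP_f46765_al.LawSubexpGrowth

open Pool.Agent.LawGrowth

universe u v

/-- For all `l` and `d` there is a subexponential sequence `c` such that, for every nontrivial word
`w` of length at most `l`, every field `K` and every group `G` generated by `d` elements and
satisfying the law `w`, the dimension of `I^n / I^(n+1)` is at most `c n`, where `I` is the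
augmentation ideal of `K[G]`. -/
theorem result : ∀ l d : ℕ, ∃ c : ℕ → ℕ,
    (∀ ε : ℝ, 0 < ε → ∃ C : ℝ, ∀ n : ℕ, (c n : ℝ) ≤ C * (1 + ε) ^ n) ∧
    ∀ (k : ℕ) (w : FreeGroup (Fin k)), w ≠ 1 → w.norm ≤ l →
      ∀ (K : Type u) [Field K] (G : Type v) [Group G],
        (∀ φ : Fin k → G, FreeGroup.lift φ w = 1) →
        (∃ s : Fin d → G, Subgroup.closure (Set.range s) = ⊤) →
        ∀ n : ℕ, layerRank K G n ≤ (c n : Cardinal) := by
  intro l d
  refine ⟨cc l d, fun ε hε => sum_subexp d ε hε _, ?_⟩
  rintro k w hw hl K _ G _ hlaw ⟨s, hs⟩ n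
  obtain ⟨h1, h2⟩ := growth (K := K) hw hl hlaw hs n
  unfold layerRank
  rw [← Module.finrank_eq_rank]
  exact_mod_cast h2

end Pool.Agent.Results.MP_f46765_al.LawSubexpGrowth
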